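import Pool.Agent.Q66.RX.Stm

/-! Uniform convergence of the modified families (job CONV of project RX, helper66). -/

set_option autoImplicit false

namespace Pool.Agent.Q154.RX

open Topology Filter Set Pool.Agent.Q66.RX

lemma isOpen_rr_pos : IsOpen {z : Circle | 0 < rr z} := by
  have h : Continuous rr := Complex.continuous_re.comp continuous_subtype_val
  exact isOpen_lt continuous_const h

lemma isOpen_dual_pos {X : Type} [CommGroup X] [TopologicalSpace X] [IsTopologicalGroup X]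
    {K : Set X} (hK : IsCompact K) :
    IsOpen {β : PontryaginDual X | ∀ v ∈ K, 0 < rr (β v)} := by
  have h1 : IsOpen {f : C(X, Circle) | MapsTo f K {z : Circle | 0 < rr z}} :=
    ContinuousMap.isOpen_setOfPred_mapsTo hK isOpen_rr_pos
  exact h1.preimage (ContinuousMonoidHom.isInducing_toContinuousMap X Circle).continuous

theorem t_CONV (hB : S_BMG) : S_CONV := by
  intro I X _ _ _ V K x y hR2 hV hVV hK hVK hx hψ hβ U hU
  obtain ⟨L, hL, hLU⟩ := hR2 U hU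
  have hone : (1 : PontryaginDual X) ∈ {β : PontryaginDual X | ∀ v ∈ K, 0 < rr (β v)} := by
    intro v _
    have : (1 : PontryaginDual X) v = 1 := rfl
    rw [this]
    simp [rr]
  have hcov : ∀ ψ ∈ L, {χ : PontryaginDual X | χ * ψ⁻¹ ∈
      {β : PontryaginDual X | ∀ v ∈ K, 0 < rr (β v)}} ∈ 𝓝 ψ := by
    intro ψ _
    have h1 : IsOpen {χ : PontryaginDual X | χ * ψ⁻¹ ∈
        {β : PontryaginDual X | ∀ v ∈ K, 0 < rr (β v)}} :=
      (isOpen_dual_pos hK).preimage (continuous_mul_const ψ⁻¹)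
    apply h1.mem_nhds
    show ψ * ψ⁻¹ ∈ {β : PontryaginDual X | ∀ v ∈ K, 0 < rr (β v)}
    rw [mul_inv_cancel]
    exact hone
  obtain ⟨t, htL, ht⟩ := hL.elim_nhds_subcover _ hcov
  have hW0 : {z : Circle | 0 < rr z} ∈ 𝓝 (1 : Circle) := by
    apply isOpen_rr_pos.mem_nhds
    simp [rr]
  obtain ⟨V', hV', hVW⟩ : ∃ V' ∈ 𝓝 (1 : Circle), ∀ v ∈ V', ∀ w ∈ V',
      v * w ∈ {z : Circle | 0 < rr z} := exists_nhds_one_split hW0
  obtain ⟨k, hk⟩ := hB X V (fun n => mem_of_mem_nhds (hV n)) hVV V' hV'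
  have hev : ∀ᶠ n in atTop, ∀ ψ ∈ t, ∀ i, ψ (y n i) ∈ V' :=
    (eventually_all_finset t).2 fun ψ _ => hψ ψ V' hV'
  filter_upwards [hev, eventually_ge_atTop k] with n hn hkn i
  apply hLU
  intro ψ hψL
  obtain ⟨ψ', hψ't, hmem⟩ := mem_iUnion₂.1 (ht hψL)
  have hpos : ∀ v ∈ V 0, 0 < rr ((ψ * ψ'⁻¹ : PontryaginDual X) v) := fun v hv =>
    hmem v (hVK hv)
  have h1 : (ψ * ψ'⁻¹ : PontryaginDual X) (y n i) ∈ V' := by
    rw [hβ _ hpos n i]
    exact hk 0 (ψ * ψ'⁻¹ : PontryaginDual X).toMonoidHom (fun v hv => (hpos v hv).le) n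
      (by omega) (x n i) (hx n i)
  have h2 : ψ' (y n i) ∈ V' := hn ψ' hψ't i
  have h3 := hVW _ h1 _ h2
  have h4 : (ψ * ψ'⁻¹ : PontryaginDual X) (y n i) * ψ' (y n i) = ψ (y n i) := by
    show ψ (y n i) * (ψ' (y n i))⁻¹ * ψ' (y n i) = ψ (y n i)
    rw [inv_mul_cancel_right]
  rw [h4] at h3
  exact le_of_lt h3

end Pool.Agent.Q154.RX
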