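import Pool.Agent.Q66.RX.Stm

/-! Divisibility of the group of double families (job DIV of project RX, helper66). -/

set_option autoImplicit false

namespace Pool.Agent.Q154.RX

open Topology Filter Set Pool.Agent.Q66.RX

/-- a root of an element of the circle group -/
noncomputable def root (n : ℕ) (z : Circle) : Circle := Circle.exp (Complex.arg z / n)

lemma root_pow {n : ℕ} (hn : 0 < n) (z : Circle) : root n z ^ n = z := by
  unfold root
  rw [← Circle.exp_natCast_mul]
  have hn' : (n : ℝ) ≠ 0 := by exact_mod_cast hn.ne'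
  rw [mul_div_cancel₀ _ hn']
  exact Circle.exp_arg z

lemma root_tendsto (n : ℕ) : Tendsto (root n) (𝓝 1) (𝓝 1) := by
  have h1 : ContinuousAt (fun z : Circle => Complex.arg (z : ℂ)) 1 := by
    have h2 : ContinuousAt Complex.arg ((1 : Circle) : ℂ) := by
      apply Complex.continuousAt_arg
      simp
    exact h2.comp (f := fun z : Circle => (z : ℂ)) (continuous_subtype_val : Continuous fun z : Circle => (z : ℂ)).continuousAt
  have h3 : ContinuousAt (root n) 1 :=
    Circle.exp.continuous.continuousAt.comp (h1.div_const (n : ℝ))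
  have h4 : root n 1 = 1 := by
    unfold root
    simp
  have h5 : Tendsto (root n) (𝓝 1) (𝓝 (root n 1)) := h3
  rwa [h4] at h5

theorem t_DIV : S_DIV := by
  intro I 𝓕 φ n hn
  obtain ⟨φ, h1, h2⟩ := φ
  refine ⟨⟨fun m i => root n (φ m i), ?_, ?_⟩, ?_⟩
  · intro V hV
    have hV' : root n ⁻¹' V ∈ 𝓝 (1 : Circle) := root_tendsto n hV
    filter_upwards [h1 _ hV'] with m hm i
    exact hm i
  · intro m
    exact (root_tendsto n).comp (h2 m)
  · apply Subtype.ext
    funext m i
    exact root_pow hn (φ m i)

end Pool.Agent.Q154.RX
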